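import Pool.Agent.H564Z.OTMain

set_option autoImplicit false

namespace Pool.Agent.Results.MP_ced62d_co.ANoConstant

open Pool.Agent.H564Z.OT

/-- The negated form of Q1: there is an ordered graph `H` such that for every `C` some ordered
graph `G` on `[n]` with minimum degree at least `(1 - 1 / χ*_cr(H)) n` has no `H`-tiling covering
all but at most `C` vertices. -/
theorem result : ∃ (h : ℕ) (H : SimpleGraph (Fin h)), ∀ C : ℕ,
    ∃ (n : ℕ) (G : SimpleGraph (Fin n)),
      (∀ v : Fin n, (1 - 1 / chiStar H) * (n : ℝ) ≤ ((G.neighborSet v).ncard : ℝ)) ∧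
      ∀ T : Set (Fin h → Fin n), IsTiling H G T → C < (uncovered T).ncard := by
  refine ⟨6, H0, fun C => ?_⟩
  obtain ⟨n, G, h1, h2⟩ := exists_bad C
  refine ⟨n, G, fun v => ?_, h2⟩
  obtain ⟨h3, h4⟩ := chiStar_bounds
  have h5 : (2 : ℝ) * n ≤ 3 * (G.neighborSet v).ncard := by exact_mod_cast h1 v
  have h6 : 1 / 3 ≤ 1 / chiStar H0 := one_div_le_one_div_of_le (by linarith) h4
  have h7 : (0 : ℝ) ≤ n := Nat.cast_nonneg n
  nlinarith

end Pool.Agent.Results.MP_ced62d_co.ANoConstant
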